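import Pool.Agent.Helper18_Fine.Cons

/-!
DOPEN: the class is open.
-/

namespace Pool.Agent.H16F.H18

open Complex Filter Topology Pool.Agent.H1Gen

theorem dopen : DopenStatement := by
  intro δ n _
  rw [isOpen_iff_mem_nhds]
  intro v hv
  have hv' : Cls δ v := hv
  have hn : 3 ≤ n := by
    by_contra hlt
    have hn0 : n ≠ 0 := NeZero.ne n
    have h12 : n = 1 ∨ n = 2 := by omega
    rcases h12 with rfl | rfl
    · have := hv'.2.2.1 0 0
      have e : v (0 + 1) - v 0 = 0 := by
        rw [Subsingleton.elim (0 + 1 : Fin 1) 0]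
        simp
      rw [e] at this
      simp at this
    · have h := hv'.2.2.2.1
      have : (0 : Fin 2) = 1 := by
        apply h
        show ‖v (0 + 1) - v 0‖ = ‖v (1 + 1) - v 1‖
        have e1 : (0 + 1 : Fin 2) = 1 := rfl
        have e2 : (1 + 1 : Fin 2) = 0 := rfl
        rw [e1, e2]
        exact norm_sub_rev _ _
      have h9 : 0 % 2 = 1 % 2 := congrArg Fin.val this
      omega
  have h := (cls_iff δ v).1 hv'
  have h1 := h.1.ev hn
  have h2 : ∀ᶠ w in 𝓝 v, ∀ k, Gk k w := by
    rw [Filter.eventually_all]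
    intro k
    exact Gk_ev hn h.1.1 k (h.2 k)
  filter_upwards [h1, h2] with w hw1 hw2
  exact (cls_iff δ w).2 ⟨hw1, hw2⟩

end Pool.Agent.H16F.H18
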