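import Pool.Agent.Helper18_Fine.Cons

/-!
DPERT: side lengths and angles become pairwise different after a small perturbation.
-/

namespace Pool.Agent.H16F.H18

open Complex Filter Topology Pool.Agent.H1Gen

theorem perturb {X K : Type*} [TopologicalSpace X] (P : X → Prop)
    (hP : ∀ x, P x → ∀ᶠ y in 𝓝 x, P y) (G : K → X → Prop)
    (hG : ∀ k x, P x → G k x → ∀ᶠ y in 𝓝 x, G k y)
    (hd : ∀ k x, P x → ∃ᶠ y in 𝓝 x, G k y) (s : Finset K) :
    ∀ x, P x → ∃ᶠ y in 𝓝 x, P y ∧ ∀ k ∈ s, G k y := by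
  classical
  induction s using Finset.induction_on with
  | empty =>
    intro x hx
    exact ((hP x hx).mono fun y hy => ⟨hy, by simp⟩).frequently
  | insert a s ha ih =>
    intro x hx
    rw [← frequently_frequently_nhds]
    refine (ih x hx).mono fun y hy => ?_
    have h1 := hd a y hy.1
    have h2 : ∀ᶠ z in 𝓝 y, ∀ k ∈ s, G k z := by
      rw [Filter.eventually_all_finset]
      intro k hk
      exact hG k y hy.1 (hy.2 k hk)
    refine (h1.and_eventually ((hP y hy.1).and h2)).mono ?_
    rintro z ⟨hz1, hz2, hz3⟩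
    refine ⟨hz2, ?_⟩
    intro k hk
    rcases Finset.mem_insert.1 hk with rfl | hk
    · exact hz1
    · exact hz3 k hk

/-- points `v + s e` for small `s` -/
theorem freq_line {n : ℕ} {G : (Fin n → ℂ) → Prop} (v e : Fin n → ℂ)
    (h : ∀ s : ℝ, 0 < s → G (v + s • e)) : ∃ᶠ w in 𝓝 v, G w := by
  have h1 : Tendsto (fun s : ℝ => v + s • e) (𝓝[>] 0) (𝓝 v) := by
    have : Continuous (fun s : ℝ => v + s • e) := by fun_prop
    have h2 := this.tendsto 0
    simp only [zero_smul, add_zero] at h2
    exact h2.mono_left nhdsWithin_le_nhds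
  refine h1.frequently ?_
  have h3 : ∀ᶠ s : ℝ in 𝓝[>] 0, G (v + s • e) :=
    Filter.eventually_of_mem self_mem_nhdsWithin fun s hs => h s hs
  exact h3.frequently

theorem arg_add {q : ℂ} (hq : 0 < q.im) {s : ℝ} (hs : 0 < s) : arg (q + s) ≠ arg q := by
  intro h
  have h0 : q ≠ 0 := by
    rintro rfl
    simp at hq
  have h1 : q + s ≠ 0 := by
    intro h
    have := congrArg Complex.im h
    simp at this
    exact hq.ne' this
  rw [eq_comm, arg_eq_arg_iff h0 h1] at h
  have h2 : ((‖q + s‖ / ‖q‖ : ℝ) : ℂ) * q = q + s := by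
    push_cast
    exact h
  have him := congrArg Complex.im h2
  have hre := congrArg Complex.re h2
  simp only [re_ofReal_mul, im_ofReal_mul, add_im, add_re, ofReal_im, ofReal_re, add_zero]
    at him hre
  have : ‖q + s‖ / ‖q‖ = 1 := by
    have h3 : (‖q + s‖ / ‖q‖ - 1) * q.im = 0 := by linarith
    rcases mul_eq_zero.1 h3 with h4 | h4
    · linarith
    · exact absurd h4 hq.ne'
  rw [this] at hre
  linarith

theorem arg_inv_add {q : ℂ} (hq : 0 < q.im) {s : ℝ} (hs : 0 < s) :
    arg (q / (1 + s * q)) ≠ arg q := by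
  intro h
  have h0 : q ≠ 0 := by
    rintro rfl
    simp at hq
  have h1 : 1 + s * q ≠ 0 := by
    intro h
    have := congrArg Complex.im h
    simp at this
    rcases this with h2 | h2
    · exact hs.ne' h2
    · exact hq.ne' h2
  have h2 : q / (1 + s * q) ≠ 0 := div_ne_zero h0 h1
  rw [arg_eq_arg_iff h2 h0] at h
  set r : ℝ := ‖q‖ / ‖q / (1 + s * q)‖ with hr
  have hr0 : 0 < r := div_pos (norm_pos_iff.2 h0) (norm_pos_iff.2 h2)
  have h3 : (r : ℂ) * (q / (1 + s * q)) = q := by
    rw [hr]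
    push_cast
    exact h
  have h4 : (r : ℂ) = 1 + s * q := by
    rw [← mul_div_assoc, div_eq_iff h1, mul_comm] at h3
    exact mul_left_cancel₀ h0 h3
  have him := congrArg Complex.im h4
  simp only [ofReal_im, add_im, one_im, im_ofReal_mul, zero_add] at him
  exact (mul_pos hs hq).ne him

theorem w1 {n : ℕ} [NeZero n] (hn : 5 ≤ n) (i : Fin n) :
    (((i + 1 : Fin n) : ℕ) = i + 1 ∧ (i : ℕ) + 1 < n) ∨
      (((i + 1 : Fin n) : ℕ) + n = i + 1 ∧ n ≤ (i : ℕ) + 1) := by
  have e1 : ((i + 1 : Fin n) : ℕ) = (i + 1) % n := by rw [Fin.val_add, v1 (by omega)]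
  have hi := i.2
  rcases lt_or_ge ((i : ℕ) + 1) n with h | h
  · left
    rw [Nat.mod_eq_of_lt h] at e1
    exact ⟨e1, h⟩
  · right
    rw [Nat.mod_eq_sub_mod h, Nat.mod_eq_of_lt (by omega)] at e1
    exact ⟨by omega, h⟩

theorem w2 {n : ℕ} [NeZero n] (hn : 5 ≤ n) (i : Fin n) :
    (((i + 2 : Fin n) : ℕ) = i + 2 ∧ (i : ℕ) + 2 < n) ∨
      (((i + 2 : Fin n) : ℕ) + n = i + 2 ∧ n ≤ (i : ℕ) + 2) := by
  have e1 : ((i + 2 : Fin n) : ℕ) = (i + 2) % n := by rw [Fin.val_add, v2 (by omega)]
  have hi := i.2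
  rcases lt_or_ge ((i : ℕ) + 2) n with h | h
  · left
    rw [Nat.mod_eq_of_lt h] at e1
    exact ⟨e1, h⟩
  · right
    rw [Nat.mod_eq_sub_mod h, Nat.mod_eq_of_lt (by omega)] at e1
    exact ⟨by omega, h⟩

theorem add_single_same {n : ℕ} (v : Fin n → ℂ) (s : ℝ) (c : Fin n) (x : ℂ) :
    (v + s • (Pi.single c x : Fin n → ℂ)) c = v c + s * x := by
  simp

theorem add_single_ne {n : ℕ} (v : Fin n → ℂ) (s : ℝ) {c d : Fin n} (h : d ≠ c) (x : ℂ) :
    (v + s • (Pi.single c x : Fin n → ℂ)) d = v d := by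
  simp [Pi.single_eq_of_ne h]

theorem dense_len {n : ℕ} [NeZero n] (hn : 5 ≤ n) {v : Fin n → ℂ} (hv : CCW v) {i j : Fin n}
    (hij : i ≠ j) (he : Fb true i v = Fb true j v) :
    ∃ᶠ w in 𝓝 v, Fb true i w ≠ Fb true j w := by
  have a1 := w1 hn i
  have a2 := w2 hn i
  have b1 := w1 hn j
  have b2 := w2 hn j
  have hij' : (i : ℕ) ≠ j := fun h => hij (Fin.ext h)
  have hi := i.2
  have hj := j.2
  simp only [Fb, if_true] at he ⊢
  have hpos : 0 < ‖v (i + 1) - v i‖ := norm_pos_iff.2 (side_ne (by omega) hv i)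
  by_cases h : j = i + 1
  · subst h
    refine freq_line v (Pi.single i (v i - v (i + 1))) fun s hs => ?_
    have n1 : i + 1 ≠ i := by
      intro h
      rw [Fin.ext_iff] at h
      omega
    have n2 : i + 1 + 1 ≠ i := by
      intro h
      rw [Fin.ext_iff] at h
      omega
    rw [add_single_same, add_single_ne _ _ n1, add_single_ne _ _ n2]
    have : v (i + 1) - (v i + s * (v i - v (i + 1))) = ((1 + s : ℝ) : ℂ) * (v (i + 1) - v i) := by
      push_cast
      ring
    rw [this, norm_mul, norm_real, Real.norm_of_nonneg (by linarith), ← he]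
    nlinarith
  · refine freq_line v (Pi.single (i + 1) (v (i + 1) - v i)) fun s hs => ?_
    have n1 : i ≠ i + 1 := by
      intro h
      rw [Fin.ext_iff] at h
      omega
    have n2 : j + 1 ≠ i + 1 := by
      intro h
      exact hij (add_right_cancel h).symm
    rw [add_single_same, add_single_ne _ _ n1, add_single_ne _ _ h, add_single_ne _ _ n2]
    have : v (i + 1) + s * (v (i + 1) - v i) - v i = ((1 + s : ℝ) : ℂ) * (v (i + 1) - v i) := by
      push_cast
      ring
    rw [this, norm_mul, norm_real, Real.norm_of_nonneg (by linarith), ← he]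
    nlinarith

theorem dense_arg1 {n : ℕ} [NeZero n] (hn : 5 ≤ n) {v : Fin n → ℂ} (hv : CCW v) {i j : Fin n}
    (h0 : j ≠ i + 2) (h1 : j + 1 ≠ i + 2) (h2 : j + 2 ≠ i + 2)
    (he : Fb false i v = Fb false j v) :
    ∃ᶠ w in 𝓝 v, Fb false i w ≠ Fb false j w := by
  have a1 := w1 hn i
  have a2 := w2 hn i
  have hi := i.2
  have n0 : i ≠ i + 2 := by
    intro h
    rw [Fin.ext_iff] at h
    omega
  have n1 : i + 1 ≠ i + 2 := by
    intro h
    rw [Fin.ext_iff] at h
    omega
  simp only [Fb, Bool.false_eq_true, if_false] at he ⊢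
  refine freq_line v (Pi.single (i + 2) (v (i + 1) - v i)) fun s hs => ?_
  rw [add_single_same, add_single_ne _ _ n0, add_single_ne _ _ n1, add_single_ne _ _ h0,
    add_single_ne _ _ h1, add_single_ne _ _ h2, ← he]
  have hb := side_ne (by omega) hv i
  have : (v (i + 2) + s * (v (i + 1) - v i) - v (i + 1)) / (v (i + 1) - v i) =
      (v (i + 2) - v (i + 1)) / (v (i + 1) - v i) + s := by
    field_simp
    ring
  rw [this]
  exact arg_add (qt_im (by omega) hv i) hs

theorem dense_arg2 {n : ℕ} [NeZero n] (hn : 5 ≤ n) {v : Fin n → ℂ} (hv : CCW v) {i j : Fin n}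
    (h0 : j ≠ i) (h1 : j + 1 ≠ i) (h2 : j + 2 ≠ i)
    (he : Fb false i v = Fb false j v) :
    ∃ᶠ w in 𝓝 v, Fb false i w ≠ Fb false j w := by
  have a1 := w1 hn i
  have a2 := w2 hn i
  have hi := i.2
  have n0 : i + 1 ≠ i := by
    intro h
    rw [Fin.ext_iff] at h
    omega
  have n1 : i + 2 ≠ i := by
    intro h
    rw [Fin.ext_iff] at h
    omega
  simp only [Fb, Bool.false_eq_true, if_false] at he ⊢
  refine freq_line v (Pi.single i (-(v (i + 2) - v (i + 1)))) fun s hs => ?_
  rw [add_single_same, add_single_ne _ _ n0, add_single_ne _ _ n1, add_single_ne _ _ h0,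
    add_single_ne _ _ h1, add_single_ne _ _ h2, ← he]
  have hb := side_ne (by omega) hv i
  have : v (i + 1) - (v i + s * -(v (i + 2) - v (i + 1))) =
      (v (i + 1) - v i) * (1 + s * ((v (i + 2) - v (i + 1)) / (v (i + 1) - v i))) := by
    field_simp
    ring
  rw [this, ← div_div]
  exact arg_inv_add (qt_im (by omega) hv i) hs

theorem dense_gk {n : ℕ} [NeZero n] (hn : 5 ≤ n) {v : Fin n → ℂ} (hv : CCW v)
    (k : Bool × Fin n × Fin n) : ∃ᶠ w in 𝓝 v, Gk k w := by
  obtain ⟨b, i, j⟩ := k
  by_cases hk : i = j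
  · exact (Filter.Eventually.of_forall fun w h' => absurd hk h').frequently
  by_cases hne : Fb b i v = Fb b j v
  · have key : ∃ᶠ w in 𝓝 v, Fb b i w ≠ Fb b j w := by
      cases b
      · have a1 := w1 hn j
        have a2 := w2 hn j
        have b1 := w2 hn i
        have hij' : (i : ℕ) ≠ j := fun h => hk (Fin.ext h)
        have hi := i.2
        have hj := j.2
        by_cases hc : j + 1 ≠ i ∧ j + 2 ≠ i
        · exact dense_arg2 hn hv (Ne.symm hk) hc.1 hc.2 hne
        · refine dense_arg1 hn hv ?_ ?_ ?_ hne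
          · intro h
            apply hc
            constructor
            · intro h'
              rw [Fin.ext_iff] at h h'
              omega
            · intro h'
              rw [Fin.ext_iff] at h h'
              omega
          · intro h
            apply hc
            constructor
            · intro h'
              rw [Fin.ext_iff] at h h'
              omega
            · intro h'
              rw [Fin.ext_iff] at h h'
              omega
          · intro h
            exact hk (add_right_cancel h).symm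
      · exact dense_len hn hv hk hne
    exact key.mono fun w hw _ => hw
  · exact ((Gk_ev (by omega) hv (b, i, j) (fun _ => hne)).frequently)

theorem dpert : DpertStatement := by
  intro n _ hn δ v h1 h2 h3 ε hε
  have hop : Op δ v := ⟨h1, h2, h3⟩
  have h := perturb (K := Bool × Fin n × Fin n) (Op δ) (fun x hx => hx.ev (by omega)) Gk
    (fun k x hx hk => Gk_ev (by omega) hx.1 k hk) (fun k x hx => dense_gk hn hx.1 k)
    Finset.univ v hop
  have hball : ∀ᶠ w in 𝓝 v, dist w v < ε := Metric.ball_mem_nhds v hε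
  obtain ⟨w, ⟨hw1, hw2⟩, hw3⟩ := (h.and_eventually hball).exists
  refine ⟨w, (cls_iff δ w).2 ⟨hw1, fun k => hw2 k (Finset.mem_univ k)⟩, fun i => ?_⟩
  rw [← dist_eq_norm]
  exact lt_of_le_of_lt (dist_le_pi_dist w v i) hw3

end Pool.Agent.H16F.H18
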