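import Pool.Agent.Helper16_Fine.Stmt3

/-!
Consecutive vertices of a polygon in counterclockwise order; continuity of side lengths and
exterior angles.
-/

namespace Pool.Agent.H16F.H18

open Complex Filter Topology Pool.Agent.H1Gen

theorem det_cont {X : Type*} [TopologicalSpace X] {f g : X → ℂ} (hf : Continuous f)
    (hg : Continuous g) : Continuous (fun x => det (f x) (g x)) := by
  unfold det
  fun_prop

theorem isOpen_CCW' {n : ℕ} : IsOpen {v : Fin n → ℂ | CCW v} := by
  have : {v : Fin n → ℂ | CCW v} = ⋂ i : Fin n, ⋂ j : Fin n, ⋂ k : Fin n,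
      {v : Fin n → ℂ | i < j → j < k → 0 < det (v j - v i) (v k - v i)} := by
    ext v
    simp [CCW]
  rw [this]
  refine isOpen_iInter_of_finite fun i => isOpen_iInter_of_finite fun j =>
    isOpen_iInter_of_finite fun k => ?_
  by_cases h1 : i < j
  · by_cases h2 : j < k
    · simp only [h1, h2, true_implies]
      exact isOpen_lt continuous_const (det_cont (by fun_prop) (by fun_prop))
    · simp [h2]
  · simp [h1]

theorem det_cyc (a b c : ℂ) : det (b - a) (c - a) = det (c - b) (a - b) := by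
  unfold det
  simp only [sub_re, sub_im]
  ring

theorem det_cons (a b c : ℂ) : det (b - a) (c - a) = det (b - a) (c - b) := by
  unfold det
  simp only [sub_re, sub_im]
  ring

theorem v1 {n : ℕ} [NeZero n] (hn : 3 ≤ n) : ((1 : Fin n) : ℕ) = 1 := by
  show 1 % n = 1
  exact Nat.mod_eq_of_lt (by omega)

theorem v2 {n : ℕ} [NeZero n] (hn : 3 ≤ n) : ((2 : Fin n) : ℕ) = 2 := by
  show 2 % n = 2
  exact Nat.mod_eq_of_lt (by omega)

theorem cons_pos {n : ℕ} [NeZero n] (hn : 3 ≤ n) {v : Fin n → ℂ} (hv : CCW v) (i : Fin n) :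
    0 < det (v (i + 1) - v i) (v (i + 2) - v (i + 1)) := by
  rw [← det_cons]
  have e1 : ((i + 1 : Fin n) : ℕ) = (i + 1) % n := by rw [Fin.val_add, v1 hn]
  have e2 : ((i + 2 : Fin n) : ℕ) = (i + 2) % n := by rw [Fin.val_add, v2 hn]
  have hi := i.2
  rcases lt_trichotomy ((i : ℕ) + 2) n with h | h | h
  · rw [Nat.mod_eq_of_lt (by omega)] at e1 e2
    exact hv i (i + 1) (i + 2) (Fin.lt_def.2 (by omega)) (Fin.lt_def.2 (by omega))
  · rw [Nat.mod_eq_of_lt (by omega)] at e1
    rw [h, Nat.mod_self] at e2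
    rw [det_cyc, det_cyc]
    exact hv (i + 2) i (i + 1) (Fin.lt_def.2 (by omega)) (Fin.lt_def.2 (by omega))
  · have h1 : (i : ℕ) + 1 = n := by omega
    rw [h1, Nat.mod_self] at e1
    have : (i : ℕ) + 2 = n + 1 := by omega
    rw [this, Nat.add_mod_left, Nat.mod_eq_of_lt (by omega)] at e2
    rw [det_cyc]
    exact hv (i + 1) (i + 2) i (Fin.lt_def.2 (by omega)) (Fin.lt_def.2 (by omega))

theorem im_div_pos {a b : ℂ} (h : 0 < det a b) : 0 < (b / a).im := by
  have ha : a ≠ 0 := by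
    rintro rfl
    simp [det] at h
  have h2 : 0 < normSq a := normSq_pos.2 ha
  rw [div_im]
  unfold det at h
  rw [← sub_div]
  apply div_pos _ h2
  linarith

/-- the quotient of consecutive sides -/
noncomputable def qt {n : ℕ} [NeZero n] (i : Fin n) (v : Fin n → ℂ) : ℂ :=
  (v (i + 2) - v (i + 1)) / (v (i + 1) - v i)

theorem qt_im {n : ℕ} [NeZero n] (hn : 3 ≤ n) {v : Fin n → ℂ} (hv : CCW v) (i : Fin n) :
    0 < (qt i v).im := im_div_pos (cons_pos hn hv i)

theorem side_ne {n : ℕ} [NeZero n] (hn : 3 ≤ n) {v : Fin n → ℂ} (hv : CCW v) (i : Fin n) :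
    v (i + 1) - v i ≠ 0 := by
  intro h
  have := cons_pos hn hv i
  rw [h] at this
  simp [det] at this

theorem cont_len {n : ℕ} [NeZero n] (i : Fin n) :
    Continuous (fun v : Fin n → ℂ => ‖v (i + 1) - v i‖) := by
  fun_prop

theorem cont_arg {n : ℕ} [NeZero n] (hn : 3 ≤ n) {v : Fin n → ℂ} (hv : CCW v) (i : Fin n) :
    ContinuousAt (fun w : Fin n → ℂ => Complex.arg ((w (i + 2) - w (i + 1)) /
      (w (i + 1) - w i))) v := by
  have h1 : ContinuousAt (fun w : Fin n → ℂ => (w (i + 2) - w (i + 1)) / (w (i + 1) - w i)) v := by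
    apply ContinuousAt.div
    · fun_prop
    · fun_prop
    · exact side_ne hn hv i
  have h2 : ContinuousAt Complex.arg ((v (i + 2) - v (i + 1)) / (v (i + 1) - v i)) := by
    apply Complex.continuousAt_arg
    rw [Complex.mem_slitPlane_iff]
    right
    exact (qt_im hn hv i).ne'
  exact ContinuousAt.comp (f := fun w : Fin n → ℂ => (w (i + 2) - w (i + 1)) / (w (i + 1) - w i))
    h2 h1

/-- the open conditions -/
def Op {n : ℕ} [NeZero n] (δ : ℝ) (v : Fin n → ℂ) : Prop :=
  CCW v ∧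
  (∀ i, Complex.arg ((v (i + 2) - v (i + 1)) / (v (i + 1) - v i)) < δ) ∧
  (∀ i j, ‖v (i + 1) - v i‖ < 19 / 10 * ‖v (j + 1) - v j‖)

theorem Op.ev {n : ℕ} [NeZero n] (hn : 3 ≤ n) {δ : ℝ} {v : Fin n → ℂ} (h : Op δ v) :
    ∀ᶠ w in 𝓝 v, Op δ w := by
  refine Filter.Eventually.and (isOpen_CCW'.mem_nhds h.1) (Filter.Eventually.and ?_ ?_)
  · rw [Filter.eventually_all]
    intro i
    exact (cont_arg hn h.1 i).eventually_lt continuousAt_const (h.2.1 i)
  · rw [Filter.eventually_all]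
    intro i
    rw [Filter.eventually_all]
    intro j
    exact (cont_len i).continuousAt.eventually_lt
      (continuousAt_const.mul (cont_len j).continuousAt) (h.2.2 i j)

/-- the quantities which have to be different -/
noncomputable def Fb {n : ℕ} [NeZero n] (b : Bool) (i : Fin n) (v : Fin n → ℂ) : ℝ :=
  if b then ‖v (i + 1) - v i‖ else Complex.arg ((v (i + 2) - v (i + 1)) / (v (i + 1) - v i))

theorem Fb_cont {n : ℕ} [NeZero n] (hn : 3 ≤ n) {v : Fin n → ℂ} (hv : CCW v) (b : Bool)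
    (i : Fin n) : ContinuousAt (Fb b i) v := by
  cases b
  · exact cont_arg hn hv i
  · exact (cont_len i).continuousAt

/-- one of the conditions of the class -/
def Gk {n : ℕ} [NeZero n] (k : Bool × Fin n × Fin n) (v : Fin n → ℂ) : Prop :=
  k.2.1 ≠ k.2.2 → Fb k.1 k.2.1 v ≠ Fb k.1 k.2.2 v

theorem Gk_ev {n : ℕ} [NeZero n] (hn : 3 ≤ n) {v : Fin n → ℂ} (hv : CCW v)
    (k : Bool × Fin n × Fin n) (h : Gk k v) : ∀ᶠ w in 𝓝 v, Gk k w := by
  by_cases hk : k.2.1 = k.2.2
  · exact Filter.Eventually.of_forall fun w h' => absurd hk h'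
  · have h1 := h hk
    have h2 := ContinuousAt.eventually_ne
      (ContinuousAt.sub (Fb_cont hn hv k.1 k.2.1) (Fb_cont hn hv k.1 k.2.2)) (sub_ne_zero.2 h1)
    exact h2.mono fun w hw _ => sub_ne_zero.1 hw

theorem cls_iff {n : ℕ} [NeZero n] (δ : ℝ) (v : Fin n → ℂ) :
    Cls δ v ↔ Op δ v ∧ ∀ k, Gk k v := by
  constructor
  · rintro ⟨h1, h2, h3, h4, h5⟩
    refine ⟨⟨h1, h2, h3⟩, ?_⟩
    rintro ⟨b, i, j⟩ hij
    cases b
    · intro h
      exact hij (h5 h)
    · intro h
      exact hij (h4 h)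
  · rintro ⟨⟨h1, h2, h3⟩, h4⟩
    refine ⟨h1, h2, h3, ?_, ?_⟩
    · intro i j hij
      by_contra hne
      exact h4 (true, i, j) hne hij
    · intro i j hij
      by_contra hne
      exact h4 (false, i, j) hne hij

end Pool.Agent.H16F.H18
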